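import Pool.Graph.R_pool_sql_team_39128cda.H.MP_a0704c_an.C

/-!
# Complemented subspaces of `C(S × X)`

`tens` is the tensor product of an operator `C(X) → C(Y)` with the identity of `C(S)`; `mil` is
Milutin's lemma: `C(K)` is complemented in `C(2^ℕ)` for every nonempty compact metrizable `K`.
-/

set_option autoImplicit false
set_option linter.unusedSectionVars false

namespace Pool.Agent.KS6_82.BN

open Filter Topology Set Pool.Agent.H.MP_6fa8f6_an Pool.Agent.H.MP_a0704c_an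

section tens

variable {X Y : Type} [TopologicalSpace X] [CompactSpace X] [T2Space X]
  [TopologicalSpace Y] [CompactSpace Y] [T2Space Y]
  (S : Type) [TopologicalSpace S] [CompactSpace S] [T2Space S]

/-- The operator `id ⊗ T`. -/
noncomputable def tens (T : C(X, ℝ) →L[ℝ] C(Y, ℝ)) : C(S × X, ℝ) →L[ℝ] C(S × Y, ℝ) :=
  LinearMap.mkContinuous
    { toFun := fun F => ContinuousMap.uncurry
        ((⟨T, T.continuous⟩ : C(C(X, ℝ), C(Y, ℝ))).comp F.curry)
      map_add' := fun F G => by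
        ext ⟨s, y⟩
        show T ((F + G).curry s) y = T (F.curry s) y + T (G.curry s) y
        rw [show (F + G).curry s = F.curry s + G.curry s from rfl, map_add]
        rfl
      map_smul' := fun c F => by
        ext ⟨s, y⟩
        show T ((c • F).curry s) y = c * T (F.curry s) y
        rw [show (c • F).curry s = c • F.curry s from rfl, map_smul]
        rfl } ‖T‖ fun F => by
    refine (ContinuousMap.norm_le _ (by positivity)).2 fun z => ?_
    have h1 : ‖F.curry z.1‖ ≤ ‖F‖ :=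
      (ContinuousMap.norm_le _ (norm_nonneg _)).2 fun x => F.norm_coe_le_norm (z.1, x)
    calc ‖T (F.curry z.1) z.2‖ ≤ ‖T (F.curry z.1)‖ := ContinuousMap.norm_coe_le_norm _ _
      _ ≤ ‖T‖ * ‖F.curry z.1‖ := T.le_opNorm _
      _ ≤ ‖T‖ * ‖F‖ := by gcongr

variable {S}

lemma tens_apply (T : C(X, ℝ) →L[ℝ] C(Y, ℝ)) (F : C(S × X, ℝ)) (s : S) (y : Y) :
    tens S T F (s, y) = T (F.curry s) y := rfl

lemma tens_curry (T : C(X, ℝ) →L[ℝ] C(Y, ℝ)) (F : C(S × X, ℝ)) (s : S) :
    (tens S T F).curry s = T (F.curry s) := by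
  ext y; rfl

lemma tens_inv {T : C(X, ℝ) →L[ℝ] C(Y, ℝ)} {P : C(Y, ℝ) →L[ℝ] C(X, ℝ)} (h : ∀ f, P (T f) = f)
    (F : C(S × X, ℝ)) : tens S P (tens S T F) = F := by
  ext ⟨s, x⟩
  rw [tens_apply, tens_curry, h]
  rfl

end tens

section mil

variable {K : Type} [MetricSpace K] [CompactSpace K] [Nonempty K]

noncomputable def v (n : ℕ) (x : K) : ℝ :=
  (n.unpair.2 : ℝ) * dist x (TopologicalSpace.denseSeq K n.unpair.1) - 1

lemma v_cont (n : ℕ) : Continuous fun x : K => v n x := by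
  unfold v; fun_prop

lemma v_sep {x y : K} (h : x ≠ y) : ∃ n, v n x < 0 ∧ 1 < v n y := by
  have hd : 0 < dist x y := dist_pos.2 h
  obtain ⟨l, hl⟩ := exists_nat_gt (3 / dist x y)
  have hl0 : (0 : ℝ) < l := lt_trans (by positivity) hl
  have hl3 : 3 < (l : ℝ) * dist x y := by
    rwa [div_lt_iff₀ hd] at hl
  obtain ⟨j, hj⟩ := (TopologicalSpace.denseRange_denseSeq K).exists_dist_lt x
    (show (0 : ℝ) < 1 / l by positivity)
  refine ⟨Nat.pair j l, ?_, ?_⟩
  · unfold v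
    rw [Nat.unpair_pair]
    simp only
    rw [lt_div_iff₀ hl0] at hj
    linarith
  · unfold v
    rw [Nat.unpair_pair]
    simp only
    rw [lt_div_iff₀ hl0] at hj
    have := dist_triangle_right x y (TopologicalSpace.denseSeq K j)
    nlinarith

/-- The relation between codes and points. -/
def Cd (σ : D) (x : K) : Prop := ∀ n, if σ n then 0 ≤ v n x else v n x ≤ 1

lemma Cd.uniq {σ : D} {x y : K} (hx : Cd σ x) (hy : Cd σ y) : x = y := by
  by_contra h
  obtain ⟨n, h1, h2⟩ := v_sep h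
  have a := hx n
  have b := hy n
  by_cases hn : σ n
  · rw [if_pos hn] at a; linarith
  · rw [if_neg hn] at b; linarith

lemma Cd.closed : IsClosed {z : D × K | Cd z.1 z.2} := by
  have : {z : D × K | Cd z.1 z.2} =
      ⋂ n, ({z : D × K | z.1 n = true ∧ 0 ≤ v n z.2} ∪ {z | z.1 n = false ∧ v n z.2 ≤ 1}) := by
    ext z
    simp only [mem_ofPred_eq, mem_iInter, mem_union, Cd]
    refine forall_congr' fun n => ?_
    cases h : z.1 n <;> simp
  rw [this]
  refine isClosed_iInter fun n => IsClosed.union ?_ ?_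
  · exact (isClosed_eq (by fun_prop) continuous_const).inter
      (isClosed_le continuous_const ((v_cont n).comp continuous_snd))
  · exact (isClosed_eq (by fun_prop) continuous_const).inter
      (isClosed_le ((v_cont n).comp continuous_snd) continuous_const)

/-- The set of the codes. -/
def MM (K : Type) [MetricSpace K] [CompactSpace K] [Nonempty K] : Set D := {σ | ∃ x : K, Cd σ x}

lemma MM_closed : IsClosed (MM K) := by
  have : MM K = Prod.fst '' {z : D × K | Cd z.1 z.2} := by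
    ext σ
    simp [MM]
  rw [this]
  exact (Cd.closed.isCompact.image continuous_fst).isClosed

instance : CompactSpace (MM K) := isCompact_iff_compactSpace.1 MM_closed.isCompact

noncomputable def pi0 (σ : MM K) : K := σ.2.choose

lemma pi0_spec (σ : MM K) : Cd σ.1 (pi0 σ) := σ.2.choose_spec

lemma pi0_cont : Continuous (pi0 : MM K → K) := by
  haveI : CompactSpace {z : D × K | Cd z.1 z.2} :=
    isCompact_iff_compactSpace.1 (Cd.closed (K := K)).isCompact
  let f : {z : D × K | Cd z.1 z.2} → MM K := fun z => ⟨z.1.1, z.1.2, z.2⟩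
  have hf : Continuous f := by
    refine Continuous.subtype_mk ?_ _
    exact continuous_fst.comp continuous_subtype_val
  have hb : Function.Bijective f := by
    refine ⟨fun z w h => ?_, fun σ => ⟨⟨(σ.1, pi0 σ), pi0_spec σ⟩, rfl⟩⟩
    have h1 : z.1.1 = w.1.1 := congrArg Subtype.val h
    have h2 : Cd z.1.1 z.1.2 := z.2
    have h3 : Cd w.1.1 w.1.2 := w.2
    rw [← h1] at h3
    exact Subtype.ext (Prod.ext h1 (h2.uniq h3))
  let e : {z : D × K | Cd z.1 z.2} ≃ₜ MM K :=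
    Continuous.homeoOfEquivCompactToT2 (f := Equiv.ofBijective f hb) hf
  have he : ∀ z, e z = f z := fun _ => rfl
  have : (pi0 : MM K → K) = fun σ => (e.symm σ).1.2 := by
    funext σ
    have h1 : (e.symm σ).1.1 = σ.1 := by
      have := e.apply_symm_apply σ
      rw [he] at this
      exact congrArg Subtype.val this
    have h2 : Cd (e.symm σ).1.1 (e.symm σ).1.2 := (e.symm σ).2
    rw [h1] at h2
    exact (pi0_spec σ).uniq h2
  rw [this]
  exact continuous_snd.comp (continuous_subtype_val.comp e.symm.continuous)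

noncomputable def pr (n : ℕ) : C(K, ℝ) := ⟨fun x => max 0 (min 1 (v n x)), by
  have := v_cont (K := K) n
  fun_prop⟩

theorem mil : ∃ (J : C(K, ℝ) →L[ℝ] C(D, ℝ)) (Q : C(D, ℝ) →L[ℝ] C(K, ℝ)), ∀ f, Q (J f) = f := by
  have hcd : ∀ (x : K) (σ : D), σ ∈ Cm (fun i => pr i x) → Cd σ x := by
    intro x σ hσ n
    have h := hσ n
    simp only [pr, ContinuousMap.coe_mk] at h
    split_ifs with hn
    · rw [if_pos hn] at h
      by_contra hc
      push Not at hc
      apply h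
      rw [max_eq_left]
      exact (min_le_right _ _).trans hc.le
    · rw [if_neg hn] at h
      by_contra hc
      push Not at hc
      apply h
      rw [min_eq_left hc.le]
      simp
  obtain ⟨U, hU⟩ := avg (MM K) (fun i => pr i) (fun i x => ⟨le_max_left _ _, by
    simp [pr]⟩) (⟨pi0, pi0_cont⟩ : C(MM K, K)) (fun x σ hσ => ⟨⟨x, hcd x σ hσ⟩,
      (pi0_spec ⟨σ, ⟨x, hcd x σ hσ⟩⟩).uniq (hcd x σ hσ)⟩)
  have hne : (MM K).Nonempty := by
    obtain ⟨x⟩ : Nonempty K := inferInstance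
    refine ⟨fun n => decide (0 ≤ v n x), x, fun n => ?_⟩
    by_cases h : 0 ≤ v n x
    · rw [if_pos (by simpa using h)]; exact h
    · rw [if_neg (by simpa using h)]; linarith
  obtain ⟨r, r1, -, r2⟩ := PiNat.exists_retraction_subtype_of_isClosed (MM_closed (K := K)) hne
  refine ⟨cp ⟨fun σ => pi0 (r σ), pi0_cont.comp r2⟩, U ∘L cp ⟨Subtype.val, by fun_prop⟩,
    fun f => ?_⟩
  rw [ContinuousLinearMap.comp_apply]
  have : cp (⟨Subtype.val, by fun_prop⟩ : C(MM K, D))
      (cp (⟨fun σ => pi0 (r σ), pi0_cont.comp r2⟩ : C(D, K)) f) =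
      cp (⟨pi0, pi0_cont⟩ : C(MM K, K)) f := by
    ext σ
    show f (pi0 (r σ.1)) = f (pi0 σ)
    rw [r1]
  rw [this]
  exact hU f

end mil

/-- Any two of the spaces `C(βℕ × βℕ × L × K)` and `C(βℕ × βℕ × L)` are isomorphic. -/
theorem absorbK (K L : Type) [MetricSpace K] [CompactSpace K] [Nonempty K]
    [TopologicalSpace L] [CompactSpace L] [T2Space L] :
    Nonempty (C((L × (B × B)) × K, ℝ) ≃L[ℝ] C(L × (B × B), ℝ)) := by
  obtain ⟨T, P, hTP⟩ := main
  obtain ⟨J, Q, hJQ⟩ := mil (K := K)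
  obtain ⟨k⟩ := hom
  obtain ⟨r, r1, -, r2⟩ := PiNat.exists_retraction_subtype_of_isClosed
    (isCompact_iff_compactSpace.2 (inferInstanceAs (CompactSpace (SS ℕ)))).isClosed ⟨_, (k OnePoint.infty).2⟩
  obtain ⟨k0⟩ : Nonempty K := inferInstance
  -- the rearrangement
  let A : C((L × (B × B)) × D, ℝ) →L[ℝ] C(L × (B × B × D), ℝ) :=
    cp ⟨fun z => ((z.1, (z.2.1, z.2.2.1)), z.2.2.2), by fun_prop⟩
  let A' : C(L × (B × B × D), ℝ) →L[ℝ] C((L × (B × B)) × D, ℝ) :=
    cp ⟨fun z => (z.1.1, (z.1.2.1, z.1.2.2, z.2)), by fun_prop⟩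
  have hA : ∀ F, A' (A F) = F := fun F => rfl
  have hA' : ∀ F, A (A' F) = F := fun F => rfl
  -- `C(Y × D)` is complemented in `C(Y)`
  let T1 : C((L × (B × B)) × D, ℝ) →L[ℝ] C(L × (B × B), ℝ) := tens L T ∘L A
  let P1 : C(L × (B × B), ℝ) →L[ℝ] C((L × (B × B)) × D, ℝ) := A' ∘L tens L P
  have h1 : ∀ F, P1 (T1 F) = F := fun F => by
    show A' (tens L P (tens L T (A F))) = F
    rw [tens_inv hTP, hA]
  let T2 : C((L × (B × B)) × K, ℝ) →L[ℝ] C(L × (B × B), ℝ) := T1 ∘L tens (L × (B × B)) J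
  let P2 : C(L × (B × B), ℝ) →L[ℝ] C((L × (B × B)) × K, ℝ) := tens (L × (B × B)) Q ∘L P1
  have h2 : ∀ F, P2 (T2 F) = F := fun F => by
    show tens (L × (B × B)) Q (P1 (T1 (tens (L × (B × B)) J F))) = F
    rw [h1, tens_inv hJQ]
  -- `C(SS × Y)` is complemented in `C(Y)`
  let E1 : C(SS ℕ × (L × (B × B)), ℝ) →L[ℝ] C((L × (B × B)) × D, ℝ) :=
    cp ⟨fun z => (r z.2, z.1), by fun_prop⟩
  let R1 : C((L × (B × B)) × D, ℝ) →L[ℝ] C(SS ℕ × (L × (B × B)), ℝ) :=
    cp ⟨fun z => (z.2, z.1.1), by fun_prop⟩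
  have h3 : ∀ F, R1 (E1 F) = F := fun F => ContinuousMap.ext fun z => by
    simp [R1, E1, r1]
  let E2 : C(L × (B × B), ℝ) →L[ℝ] C((L × (B × B)) × K, ℝ) := cp ⟨Prod.fst, by fun_prop⟩
  let R2 : C((L × (B × B)) × K, ℝ) →L[ℝ] C(L × (B × B), ℝ) := cp ⟨fun y => (y, k0), by fun_prop⟩
  have h4 : ∀ F, R2 (E2 F) = F := fun F => rfl
  obtain ⟨a⟩ := pel (Denumerable.eqv (Option ℕ)).symm T2 P2 h2 (E2 ∘L T1 ∘L E1)
    (R1 ∘L P1 ∘L R2) (fun F => by
      show R1 (P1 (R2 (E2 (T1 (E1 F))))) = F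
      rw [h4, h1, h3])
  obtain ⟨b⟩ := pel (Denumerable.eqv (Option ℕ)).symm (.id ℝ C(L × (B × B), ℝ))
    (.id ℝ C(L × (B × B), ℝ)) (fun _ => rfl) (T1 ∘L E1) (R1 ∘L P1) (fun F => by
      show R1 (P1 (T1 (E1 F))) = F
      rw [h1, h3])
  exact ⟨a.trans b.symm⟩

end Pool.Agent.KS6_82.BN
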